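import Pool.Agent.Lib.MP_40ade9_lc.KBaire

set_option autoImplicit false

namespace Pool.Agent.Results.MP_40ade9_lc.BaireThread

open Pool.Agent.Lib.MP_40ade9_lc

/-- Suppose that in the ground model there is a `□(ℵ₂)`-sequence `C` and a set `T` of ordinals below
`ℵ₂` such that, in the tree order `Below C`, every member of `T` lies below unboundedly many members
of `T`, and any countably many sets dense in `T` all have a member below one common `d < ℵ₂`.  Then
every condition of Cohen forcing (finite functions from subsets of `ω` to `2` under reverse
inclusion) forces the first-order sentence saying that there is an `ℵ₂`-Souslin tree; that is, there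
is an `ℵ₂`-Souslin tree in every generic extension by a single Cohen real. -/
theorem result (hsq : BaireSquare (Ordinal.omega.{0} 2)) :
    ∀ p : Cohen, Forces Fm.existsAlephTwoSouslin p :=
  K.mainBaire (by rwa [Cardinal.ord_aleph])

end Pool.Agent.Results.MP_40ade9_lc.BaireThread
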