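import Pool.Agent.Lib.MP_40ade9_lc.KMain

set_option autoImplicit false

namespace Pool.Agent.Results.MP_40ade9_lc.BoundingSouslin

open Pool.Agent.Lib.MP_40ade9_lc

/-- If `□(ℵ₂)` holds and the bounding number `𝔟(ω₁)` of `ω₁^ω₁` is (at most) `ℵ₂` in the ground
model (this holds if `𝔡(ω₁) = ℵ₂`, in particular if `2 ^ ℵ₁ = ℵ₂`), then every condition of Cohen
forcing (finite functions from subsets of `ω` to `2` under reverse inclusion) forces the
first-order sentence saying that there is an `ℵ₂`-Souslin tree; that is, there is an `ℵ₂`-Souslin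
tree in every generic extension by a single Cohen real. -/
theorem result (hsq : Square (Ordinal.omega.{0} 2))
    (hb : BoundingLE (Ordinal.omega.{0} 1) (Cardinal.aleph.{0} 2)) :
    ∀ p : Cohen, Forces Fm.existsAlephTwoSouslin p :=
  K.mainK (by rwa [Cardinal.ord_aleph]) (by rwa [Cardinal.ord_aleph])

end Pool.Agent.Results.MP_40ade9_lc.BoundingSouslin
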