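import Pool.Agent.Lib.MP_40ade9_lc.JSq

set_option autoImplicit false

namespace Pool.Agent.Results.MP_40ade9_lc.JensenSquare

open Pool.Agent.Lib.MP_40ade9_lc

/-- If Jensen's `□_{ω₁}` holds in the ground model (a coherent sequence of clubs `C α ⊆ α`, for
limit `α < ω₂`, of order type at most `ω₁`; such a sequence has no thread, so it witnesses
`□(ℵ₂)`), then, with no assumption on cardinal arithmetic, every condition of Cohen forcing (finite
functions from subsets of `ω` to `2` under reverse inclusion) forces the first-order sentence
saying that there is an `ℵ₂`-Souslin tree; that is, there is an `ℵ₂`-Souslin tree in every generic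
extension by a single Cohen real. -/
theorem result (hsq : JensenSquareOne) : ∀ p : Cohen, Forces Fm.existsAlephTwoSouslin p :=
  J.mainJ hsq

end Pool.Agent.Results.MP_40ade9_lc.JensenSquare
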